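import Pool.Agent.helper70.FI4.SpecK

/-!
# Project fi4, block K, row OPD: `O_p(G)` is contained in the defect group
-/

set_option autoImplicit false

namespace Pool.Agent.FI4

open Pool.Agent.helper58.DC Pool.Agent.DI Pool.Agent.GR Pool.Agent.OB Pool.Agent.DR Pool.Agent.FI Pool.Agent.FI3

theorem OPD (hCFA : CFA_stmt) (hFOV : FOV_stmt) (hCON : CON_stmt) (hTPR : Pool.Agent.FI.TPR_stmt) :
    OPD_stmt := by
  intro p M hM G _ _ D x θ χ hRt R hR
  obtain ⟨⟨-, hpg, hnz⟩, -⟩ := hR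
  have hnz' : ∀ g : G, ∀ r : G, r ∈ R ↔ g * r * g⁻¹ ∈ R := fun g r =>
    Subgroup.mem_normalizer_iff.1 (hnz (Subgroup.mem_top g)) r
  have hcz : (⊤ : Subgroup G) ≤ nz (cz R) := by
    intro g _
    rw [Subgroup.mem_normalizer_iff]
    intro h
    constructor
    · intro hh
      rw [Subgroup.mem_centralizer_iff] at hh ⊢
      intro r hr
      have h1 : g⁻¹ * r * g ∈ R := by
        have := (hnz' g⁻¹ r).1 hr
        simpa using this
      have h2 := hh _ h1
      have h3 : r * (g * h * g⁻¹) = g * ((g⁻¹ * r * g) * h) * g⁻¹ := by group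
      rw [h3, h2]
      group
    · intro hh
      rw [Subgroup.mem_centralizer_iff] at hh ⊢
      intro r hr
      have h1 : g * r * g⁻¹ ∈ R := (hnz' g r).1 hr
      have h2 := hh _ h1
      have h3 : r * h = g⁻¹ * ((g * r * g⁻¹) * (g * h * g⁻¹)) * g := by group
      rw [h3, h2]
      group
  obtain ⟨htop, -⟩ := hTPR p M hM G
  have hχ : χ ∈ IrrOn (⊤ : Subgroup G) := by
    rw [htop]; exact hRt.chi
  obtain ⟨ψ, hψ, e, he, hov⟩ := (hCFA G (cz R) ⊤ le_top hcz).1 χ hχ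
  have hii : Induces M χ χ := fun g => ⟨0, M.zero_mem, by simp⟩
  have hind : Induces M ψ χ :=
    (hFOV p M hM G R ⊤ hpg le_top le_top hnz χ hχ ψ hψ e he hov χ).1 hii
  obtain ⟨g, hg, -⟩ := hCON p M hM G D x θ χ hRt R hpg ψ hψ hind
  intro r hr
  refine hg ?_
  rw [Subgroup.mem_map]
  refine ⟨g⁻¹ * r * g, ?_, ?_⟩
  · have := (hnz' g⁻¹ r).1 hr
    simpa using this
  · simp [MulAut.conj_apply]
    group

end Pool.Agent.FI4
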